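import Pool.Agent.Helper9.TN.Defs

/-!
# TN-2: divisors of rough numbers
-/

set_option autoImplicit false

open Finset
open scoped Nat

namespace Pool.Agent.TN

theorem length_pfl_mul_prime {p a : ℕ} (hp : p.Prime) (ha : a ≠ 0) :
    (p * a).primeFactorsList.length = a.primeFactorsList.length + 1 := by
  rw [(Nat.perm_primeFactorsList_mul hp.ne_zero ha).length_eq, List.length_append,
    Nat.primeFactorsList_prime hp]
  simp [add_comm]

/-- Induction on the prime factors: the divisors of `q Φ` are divisors of `Φ` or `q` times those. -/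
theorem sum_divisors_rough {y v : ℕ} (hv : v ≠ 0) (h : ∀ p, p.Prime → p ∣ v → y < p)
    (hy : 1 ≤ y) {s : ℝ} (hs : 0 ≤ s) :
    ∑ e ∈ v.divisors, (e : ℝ) ^ (-s) ≤
      Real.exp (v.primeFactorsList.length * (y : ℝ) ^ (-s)) := by
  have hy0 : (0 : ℝ) < y := by exact_mod_cast hy
  revert hv h
  induction v using induction_on_primes with
  | zero => intro hv; exact absurd rfl hv
  | one =>
    intro _ _
    simp
  | prime_mul p a hp ih =>
    intro hv h
    have ha : a ≠ 0 := right_ne_zero_of_mul hv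
    have ih' := ih ha (fun q hq hqa => h q hq (hqa.mul_left p))
    have hyp : y < p := h p hp (dvd_mul_right p a)
    have hp0 : (0 : ℝ) < p := by exact_mod_cast hp.pos
    have hsub : (p * a).divisors ⊆ a.divisors ∪ a.divisors.image (fun e => p * e) := by
      intro d hd
      rw [Nat.mem_divisors] at hd
      rw [Finset.mem_union, Finset.mem_image, Nat.mem_divisors]
      by_cases hpd : p ∣ d
      · right
        obtain ⟨e, rfl⟩ := hpd
        exact ⟨e, Nat.mem_divisors.2 ⟨Nat.dvd_of_mul_dvd_mul_left hp.pos hd.1, ha⟩, rfl⟩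
      · left
        refine ⟨?_, ha⟩
        have hc : Nat.Coprime d p := ((Nat.Prime.coprime_iff_not_dvd hp).2 hpd).symm
        exact hc.dvd_of_dvd_mul_left hd.1
    have hnn : ∀ e : ℕ, (0 : ℝ) ≤ (e : ℝ) ^ (-s) := fun e => Real.rpow_nonneg (Nat.cast_nonneg _) _
    have h1 : ∑ e ∈ (p * a).divisors, (e : ℝ) ^ (-s) ≤
        (∑ e ∈ a.divisors, (e : ℝ) ^ (-s)) * (1 + (p : ℝ) ^ (-s)) := by
      calc ∑ e ∈ (p * a).divisors, (e : ℝ) ^ (-s)
          ≤ ∑ e ∈ a.divisors ∪ a.divisors.image (fun e => p * e), (e : ℝ) ^ (-s) :=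
            Finset.sum_le_sum_of_subset_of_nonneg hsub (fun _ _ _ => hnn _)
        _ ≤ ∑ e ∈ a.divisors, (e : ℝ) ^ (-s) +
            ∑ e ∈ a.divisors.image (fun e => p * e), (e : ℝ) ^ (-s) := by
            rw [← Finset.sum_union_inter]
            have : (0 : ℝ) ≤ ∑ e ∈ a.divisors ∩ a.divisors.image (fun e => p * e),
              (e : ℝ) ^ (-s) := Finset.sum_nonneg (fun _ _ => hnn _)
            linarith
        _ = ∑ e ∈ a.divisors, (e : ℝ) ^ (-s) +
            ∑ e ∈ a.divisors, (p : ℝ) ^ (-s) * (e : ℝ) ^ (-s) := by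
            congr 1
            rw [Finset.sum_image (fun x _ y _ hxy => Nat.eq_of_mul_eq_mul_left hp.pos hxy)]
            refine Finset.sum_congr rfl (fun e _ => ?_)
            rw [Nat.cast_mul, Real.mul_rpow (Nat.cast_nonneg _) (Nat.cast_nonneg _)]
        _ = _ := by
            rw [← Finset.mul_sum]
            ring
    have h2 : (1 + (p : ℝ) ^ (-s)) ≤ Real.exp ((y : ℝ) ^ (-s)) := by
      have h3 : (p : ℝ) ^ (-s) ≤ (y : ℝ) ^ (-s) := by
        apply Real.rpow_le_rpow_of_nonpos hy0
        · exact_mod_cast hyp.le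
        · linarith
      have h4 := Real.add_one_le_exp ((y : ℝ) ^ (-s))
      linarith
    calc ∑ e ∈ (p * a).divisors, (e : ℝ) ^ (-s)
        ≤ (∑ e ∈ a.divisors, (e : ℝ) ^ (-s)) * (1 + (p : ℝ) ^ (-s)) := h1
      _ ≤ Real.exp (a.primeFactorsList.length * (y : ℝ) ^ (-s)) * Real.exp ((y : ℝ) ^ (-s)) :=
          mul_le_mul ih' h2 (by have := hnn p; linarith) (Real.exp_pos _).le
      _ = Real.exp ((p * a).primeFactorsList.length * (y : ℝ) ^ (-s)) := by
          rw [← Real.exp_add, length_pfl_mul_prime hp ha]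
          congr 1
          push_cast
          ring

theorem length_le_log {v : ℕ} (hv : v ≠ 0) :
    (v.primeFactorsList.length : ℝ) ≤ 2 * Real.log v := by
  induction v using induction_on_primes with
  | zero => exact absurd rfl hv
  | one => simp
  | prime_mul p a hp ih =>
    have ha : a ≠ 0 := right_ne_zero_of_mul hv
    have ih' := ih ha
    rw [length_pfl_mul_prime hp ha]
    have hp0 : (p : ℝ) ≠ 0 := by exact_mod_cast hp.ne_zero
    have ha0 : (a : ℝ) ≠ 0 := by exact_mod_cast ha
    push_cast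
    rw [Real.log_mul hp0 ha0]
    have h1 : Real.log 2 ≤ Real.log p := Real.log_le_log (by norm_num) (by exact_mod_cast hp.two_le)
    have h2 := Real.log_two_gt_d9
    linarith

/-- `e / φ(e) ≤ exp (Ω(e) / y)` for rough `e` -/
theorem div_totient_rough {y e : ℕ} (he : e ≠ 0) (h : ∀ p, p.Prime → p ∣ e → y < p)
    (hy : 1 ≤ y) : (e : ℝ) / φ e ≤ Real.exp (e.primeFactorsList.length / y) := by
  have hy0 : (0 : ℝ) < y := by exact_mod_cast hy
  revert he h
  induction e using induction_on_primes with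
  | zero => intro hv; exact absurd rfl hv
  | one =>
    intro _ _
    simp
  | prime_mul p a hp ih =>
    intro hv h
    have ha : a ≠ 0 := right_ne_zero_of_mul hv
    have ih' := ih ha (fun q hq hqa => h q hq (hqa.mul_left p))
    have hyp : y < p := h p hp (dvd_mul_right p a)
    have hp0 : (0 : ℝ) < p := by exact_mod_cast hp.pos
    have hp1 : (y : ℝ) + 1 ≤ p := by exact_mod_cast hyp
    have hφ : (0 : ℝ) < φ a := by exact_mod_cast Nat.totient_pos.2 (Nat.pos_of_ne_zero ha)
    have hp2 : (0 : ℝ) < (p : ℝ) - 1 := by linarith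
    have hcast : (((p - 1 : ℕ)) : ℝ) = (p : ℝ) - 1 := by
      rw [Nat.cast_sub hp.one_lt.le, Nat.cast_one]
    have h1 : ((p : ℝ) - 1) * φ a ≤ φ (p * a) := by
      by_cases hpa : p ∣ a
      · rw [Nat.totient_mul_of_prime_of_dvd hp hpa, Nat.cast_mul]
        nlinarith
      · rw [Nat.totient_mul_of_prime_of_not_dvd hp hpa, Nat.cast_mul, hcast]
    have h2 : ((p * a : ℕ) : ℝ) / φ (p * a) ≤ (p / ((p : ℝ) - 1)) * (a / φ a) := by
      rw [div_mul_div_comm, Nat.cast_mul]
      exact div_le_div_of_nonneg_left (by positivity) (by positivity) h1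
    have h3 : (p : ℝ) / ((p : ℝ) - 1) ≤ Real.exp (1 / y) := by
      have h4 : (p : ℝ) / ((p : ℝ) - 1) = 1 / ((p : ℝ) - 1) + 1 := by
        field_simp
        ring
      have h5 : 1 / ((p : ℝ) - 1) ≤ 1 / y := one_div_le_one_div_of_le hy0 (by linarith)
      rw [h4]
      have h6 := Real.add_one_le_exp (1 / (y : ℝ))
      linarith
    calc ((p * a : ℕ) : ℝ) / φ (p * a) ≤ (p / ((p : ℝ) - 1)) * (a / φ a) := h2
      _ ≤ Real.exp (1 / y) * Real.exp (a.primeFactorsList.length / y) :=
          mul_le_mul h3 ih' (by positivity) (Real.exp_pos _).le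
      _ = Real.exp ((p * a).primeFactorsList.length / y) := by
          rw [← Real.exp_add, length_pfl_mul_prime hp ha]
          congr 1
          push_cast
          ring

end Pool.Agent.TN
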